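import Pool.Agent.N922.PQ.Stm
import Pool.Agent.N603.PM.UR

/-!
# The extension is unramified at the primes which do not divide `δ` (statement S_UR of project PQ)

Adapted from `Pool/Agent/N603/PM/UR.lean` (rational functions), whose `core` is reused.
-/

set_option autoImplicit false
set_option linter.all false

open Polynomial IsDedekindDomain NumberField
open scoped Classical IntermediateField

namespace Pool.Agent.N362.PQ

open Pool.Agent.N922.PQ

section gen

variable {F F' : Type} [Field F] [Field F'] [Algebra F F'] {γ : F'} {g : ℤ[X]} {δ : ℤ}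

theorem int_γ (h : Gen F γ g δ) : IsIntegral ℤ γ := ⟨g, h.monic, h.root⟩

theorem fin (h : Gen F γ g δ) : FiniteDimensional F F' := by
  have h1 : IsIntegral F γ := (int_γ h).tower_top
  have h2 : FiniteDimensional F F⟮γ⟯ := IntermediateField.adjoin.finiteDimensional h1
  rw [h.top] at h2
  exact Module.Finite.equiv (IntermediateField.topEquiv (F := F) (E := F')).toLinearEquiv

theorem adj (h : Gen F γ g δ) : Algebra.adjoin F {γ} = ⊤ := by
  have h1 : IsIntegral F γ := (int_γ h).tower_top
  have h2 := IntermediateField.adjoin_simple_toSubalgebra_of_isAlgebraic h1.isAlgebraic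
  rw [← h2, h.top, IntermediateField.top_toSubalgebra]

end gen

section main

variable {F F' O O' : Type} [Field F] [CharZero F] [Field F'] [Algebra F F']
  [CommRing O] [IsDedekindDomain O] [Algebra O F] [IsFractionRing O F]
  [CommRing O'] [IsDedekindDomain O'] [Algebra O' F'] [IsFractionRing O' F']
  [IsIntegralClosure O' ℤ F']
  [Algebra O F'] [IsScalarTower O F F'] [Algebra O O'] [IsScalarTower O O' F']
  [IsIntegralClosure O' O F']
  {γ : F'} {g : ℤ[X]} {δ : ℤ}

theorem step (h : Gen F γ g δ) (P : HeightOneSpectrum O') (hP : ¬ Ov δ P)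
    (v : HeightOneSpectrum O) [P.asIdeal.LiesOver v.asIdeal] (x : F) :
    P.valuation F' (algebraMap F F' x) = v.valuation F x := by
  have : FiniteDimensional F F' := fin h
  have : Algebra.IsSeparable F F' := inferInstance
  obtain ⟨y, hy⟩ := (IsIntegralClosure.isIntegral_iff (R := ℤ) (A := O')).1 (int_γ h)
  have hadj : Algebra.adjoin F {algebraMap O' F' y} = ⊤ := by
    rw [hy]; exact adj h
  refine Pool.Agent.N603.PM.UR.core O F F' O' y hadj P ?_ v x
  intro hmem
  apply hP
  have hinj : Function.Injective (algebraMap O O') := by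
    have h1 : Function.Injective (algebraMap O F') := by
      rw [IsScalarTower.algebraMap_eq O F F']
      exact (algebraMap F F').injective.comp (IsFractionRing.injective O F)
    rw [IsScalarTower.algebraMap_eq O O' F'] at h1
    exact Function.Injective.of_comp h1
  have : FaithfulSMul O O' := (faithfulSMul_iff_algebraMap_injective O O').2 hinj
  have : Module.IsTorsionFree O O' := inferInstance
  have hgy : aeval y g = 0 := by
    apply IsFractionRing.injective O' F'
    rw [map_zero, ← Polynomial.aeval_algebraMap_apply, hy]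
    exact h.root
  have hint : IsIntegral O y := IsIntegral.tower_top (R := ℤ) ⟨g, h.monic, hgy⟩
  have hdvd : minpoly O y ∣ g.map (algebraMap ℤ O) := by
    apply minpoly.isIntegrallyClosed_dvd hint
    rw [aeval_map_algebraMap]
    exact hgy
  obtain ⟨q, hq⟩ := hdvd
  have h1 : aeval y (derivative g) = aeval y (derivative (minpoly O y)) * aeval y q := by
    have h2 := congrArg (fun p : O[X] => aeval y (derivative p)) hq
    simp only [derivative_mul, map_add, map_mul, minpoly.aeval, zero_mul, add_zero] at h2
    rw [← h2, derivative_map, aeval_map_algebraMap]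
  obtain ⟨u, w, huw⟩ := h.comb
  have h3 := congrArg (aeval y) huw
  rw [map_add, map_mul, map_mul, hgy, mul_zero, zero_add, aeval_C, h1] at h3
  show (δ : O') ∈ P.asIdeal
  have h4 : algebraMap ℤ O' δ = (δ : O') := by simp
  rw [← h4, h3]
  exact Ideal.mul_mem_left _ _ (Ideal.mul_mem_right _ _ hmem)

end main

/-- Part UR of project PQ. -/
theorem ur : Pool.Agent.N922.PQ.S_UR := by
  intro F F' O O' _ _ _ _ _ _ _ _ _ _ _ _ _ _ _ γ g δ h
  let _ : Algebra O F' := ((algebraMap F F').comp (algebraMap O F)).toAlgebra
  have t1 : IsScalarTower O F F' := IsScalarTower.of_algebraMap_eq fun _ => rfl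
  have t3 : Algebra.IsIntegral ℤ O := IsIntegralClosure.isIntegral_algebra ℤ F
  let l : O →ₐ[ℤ] O' := IsIntegralClosure.lift ℤ O' F'
  let _ : Algebra O O' := l.toRingHom.toAlgebra
  have t4 : IsScalarTower O O' F' := IsScalarTower.of_algebraMap_eq fun x =>
    (IsIntegralClosure.algebraMap_lift ℤ O' F' x).symm
  have t6 : IsIntegralClosure O' O F' := IsIntegralClosure.tower_top (R := ℤ)
  have t7 : Algebra.IsIntegral O O' := IsIntegralClosure.isIntegral_algebra O F'
  have hinj : Function.Injective (algebraMap O O') := by
    have h1 : Function.Injective (algebraMap O F') := by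
      rw [IsScalarTower.algebraMap_eq O F F']
      exact (algebraMap F F').injective.comp (IsFractionRing.injective O F)
    rw [IsScalarTower.algebraMap_eq O O' F'] at h1
    exact Function.Injective.of_comp h1
  constructor
  · intro P hP
    have hp0 : P.asIdeal.under O ≠ ⊥ := by
      intro h0
      exact P.ne_bot (Ideal.eq_bot_of_comap_eq_bot h0)
    let v : HeightOneSpectrum O := ⟨P.asIdeal.under O, inferInstance, hp0⟩
    have hl : P.asIdeal.LiesOver v.asIdeal := ⟨rfl⟩
    exact ⟨v, fun x => step h P hP v x⟩
  · intro v hv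
    obtain ⟨Q, -, hQp, hQ⟩ := Ideal.exists_ideal_over_prime_of_isIntegral (S := O') v.asIdeal ⊥
      (by
        intro x hx
        have h1 : algebraMap O O' x = 0 := by simpa using hx
        have h2 : x = 0 := hinj (by rw [h1, map_zero])
        rw [h2]
        exact zero_mem _)
    have hQ0 : Q ≠ ⊥ := by
      rintro rfl
      apply v.ne_bot
      rw [← hQ]
      exact (RingHom.injective_iff_ker_eq_bot _).1 hinj
    let P : HeightOneSpectrum O' := ⟨Q, hQp, hQ0⟩
    have hl : P.asIdeal.LiesOver v.asIdeal := ⟨hQ.symm⟩
    refine ⟨P, fun x => step h P ?_ v x⟩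
    intro h1
    apply hv
    have h2 : (δ : O') ∈ Q := h1
    show (δ : O) ∈ v.asIdeal
    rw [← hQ, Ideal.mem_comap, map_intCast]
    exact h2

end Pool.Agent.N362.PQ
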